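import Mathlib
import Pool.Agent.TH813.One2

/-!
# The elliptico-toric conjecture: tuples whose field has transcendence degree one

`L` is a pair of periods `ω₁, ω₂` (independent over `ℝ`), `L.lattice = ℤ ω₁ + ℤ ω₂ = Ω`, and
`℘[L]`, `L.g₂`, `L.g₃` are Mathlib's Weierstrass function and invariants. `F` is any subfield of `ℂ`
which contains `g₂`, `g₃`, for example the field `ℚ(g₂, g₃, ω₁, ω₂, η₁, η₂)` or its algebraic
closure.

A vector `r` with `s + n` components stands for the pair of the tuples `t_l = r (inl l)` and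
`p_i = r (inr i)`. For a finite-dimensional `ℚ`-space `V` of such vectors the theorem describes all
`(t, p)` in `V` with `tr.deg_F F(t, e^t, p, ℘(p), ζ(p)) ≤ 1`, where not all of the `e^t`, `℘(p)` are
algebraic over `F`, and not all of `t`, `p`, `℘(p)`, `ζ(p)`: they lie in at most
`binom(2 dim V, dim V)` rational subspaces of `V`, each of which as a whole has transcendence degree
one.
-/

set_option autoImplicit false

open Module
open scoped PeriodPair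

namespace Pool.Agent.TH813.Old.DegreeOneCurve

/-- The Weierstrass zeta function `ζ(z) = ∑ (1/(z-l) + 1/l + z/l²)`, the sum over the lattice (the
summand of `l = 0` is `1/z`, since `1/0 = 0` in Lean). -/
noncomputable def ζ (L : PeriodPair) (z : ℂ) : ℂ :=
  ∑' l : L.lattice, (1 / (z - l) + 1 / l + z / l ^ 2)

variable {s n : ℕ}

/-- the numbers `e^t` -/
def ex (r : Fin s ⊕ Fin n → ℂ) : Set ℂ := {x | ∃ l, x = Complex.exp (r (Sum.inl l))}

/-- the numbers `℘(p)`, for the `p` outside the lattice -/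
def wp (L : PeriodPair) (r : Fin s ⊕ Fin n → ℂ) : Set ℂ :=
  {x | ∃ i, r (Sum.inr i) ∉ L.lattice ∧ x = ℘[L] (r (Sum.inr i))}

/-- the numbers `ζ(p)`, for the `p` outside the lattice -/
def ze (L : PeriodPair) (r : Fin s ⊕ Fin n → ℂ) : Set ℂ :=
  {x | ∃ i, r (Sum.inr i) ∉ L.lattice ∧ x = ζ L (r (Sum.inr i))}

/-- the numbers `t`, `p`, `e^t`, `℘(p)`, `ζ(p)` -/
def pts (L : PeriodPair) (r : Fin s ⊕ Fin n → ℂ) : Set ℂ :=
  Set.range r ∪ (ex r ∪ (wp L r ∪ ze L r))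

/-- the transcendence degree over `F` of the field generated by `S` over `F` -/
noncomputable def trd (F : IntermediateField ℚ ℂ) (S : Set ℂ) : Cardinal :=
  Algebra.trdeg F (IntermediateField.adjoin F S)

/-- some number in `S` is transcendental over `F` -/
def Trans (F : IntermediateField ℚ ℂ) (S : Set ℂ) : Prop := ∃ x ∈ S, ¬ IsAlgebraic F x

section aux

open Pool.Agent.TH813 Pool.Agent.TH813.One Pool.Agent.TH813.Ell Pool.Agent.W245.EB
open Pool.Agent.TH813.Rel (DF trF MK)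

variable {F : IntermediateField ℚ ℂ}

/-- the number of forms of the second kind -/
def ee (s n : ℕ) : Fin s ⊕ Fin n → ℕ := Sum.elim (fun _ => 0) (fun _ => 1)

/-- the group types -/
noncomputable def ty {L : PeriodPair} {κ : ℂ} (hE : Eig L κ) (h2 : L.g₂ ∈ F) (h3 : L.g₃ ∈ F) :
    ∀ c : Fin s ⊕ Fin n, G.Ty F (ee s n c)
  | Sum.inl _ => G.TM F
  | Sum.inr _ => G.TE hE h2 h3

variable {L : PeriodPair} {κ : ℂ} (hE : Eig L κ) (h2 : L.g₂ ∈ F) (h3 : L.g₃ ∈ F)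

theorem good_ty (c : Fin s ⊕ Fin n) : Good (ty hE h2 h3 c) := by
  rcases c with l | i
  · exact good_TM
  · exact good_TE hE h2 h3

theorem trd_mono {S S' : Set ℂ} (h : S ⊆ S') (h1 : trd F S' ≤ 1) : trd F S ≤ 1 := by
  obtain ⟨D₀, hD₀, h2⟩ := trF_le_one.1 h1
  refine trF_le_one.2 ⟨D₀, hD₀, fun D hD => ?_⟩
  obtain ⟨ρ, hρ⟩ := h2 D hD
  exact ⟨ρ, fun x hx => hρ x (h hx)⟩

theorem trans_iff {S : Set ℂ} : Trans F S ↔ ∃ x ∈ S, ∃ D ∈ DF F, D x ≠ 0 := by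
  constructor
  · rintro ⟨x, hx, h⟩
    refine ⟨x, hx, ?_⟩
    by_contra hcon
    push Not at hcon
    exact h (ZtFin.alg_of_killed hcon)
  · rintro ⟨x, hx, D, hD, h⟩
    exact ⟨x, hx, fun ha => h (ZtFin.killed_of_alg ha D hD)⟩

theorem zt_eq {z : ℂ} (hz : z ∉ L.lattice) : zt L z = ζ L z := zt_of_notMem hz

theorem sub_num (r : Fin s ⊕ Fin n → ℂ) : pts L r ⊆ num (ty hE h2 h3) r := by
  rintro x (⟨c, rfl⟩ | ⟨l, rfl⟩ | ⟨i, hi, rfl⟩ | ⟨i, hi, rfl⟩)
  · refine Set.mem_iUnion.2 ⟨c, ?_⟩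
    rcases c with l | i
    · exact Or.inl rfl
    · exact Or.inl rfl
  · exact Set.mem_iUnion.2 ⟨Sum.inl l, Or.inr rfl⟩
  · exact Set.mem_iUnion.2 ⟨Sum.inr i, Or.inr (Or.inr ⟨_, ⟨rfl, hi⟩, rfl⟩)⟩
  · exact Set.mem_iUnion.2 ⟨Sum.inr i, Or.inr (Or.inl (zt_eq hi).symm)⟩

theorem num_sub {r : Fin s ⊕ Fin n → ℂ} (hr : ∀ i, r (Sum.inr i) ∉ L.lattice) :
    num (ty hE h2 h3) r ⊆ pts L r := by
  intro x hx
  obtain ⟨c, hc⟩ := Set.mem_iUnion.1 hx
  rcases c with l | i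
  · rcases hc with h | h
    · exact Or.inl ⟨Sum.inl l, h.symm⟩
    · exact Or.inr (Or.inl ⟨l, h⟩)
  · rcases hc with h | h | ⟨u, ⟨hu, -⟩, rfl⟩
    · exact Or.inl ⟨Sum.inr i, h.symm⟩
    · exact Or.inr (Or.inr (Or.inr ⟨i, hr i, (Set.mem_singleton_iff.1 h).trans (zt_eq (hr i))⟩))
    · rw [Set.mem_singleton_iff] at hu
      subst hu
      exact Or.inr (Or.inr (Or.inl ⟨i, hr i, rfl⟩))

theorem val_iff (r : Fin s ⊕ Fin n → ℂ) : Trans F (ex r ∪ wp L r) ↔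
    ∃ c, ∃ D ∈ DF F, (ty hE h2 h3 c).lam 0 D (r c) ≠ 0 := by
  rw [trans_iff]
  constructor
  · rintro ⟨x, ⟨l, rfl⟩ | ⟨i, hi, rfl⟩, D, hD, hne⟩
    · refine ⟨Sum.inl l, D, hD, fun h0 => hne ?_⟩
      exact ((ty (s := s) (n := n) hE h2 h3 (Sum.inl l)).W_iff D hD _).2 h0 _ rfl
    · refine ⟨Sum.inr i, D, hD, fun h0 => hne ?_⟩
      exact ((ty (s := s) (n := n) hE h2 h3 (Sum.inr i)).W_iff D hD _).2 h0 _
        ⟨_, ⟨rfl, hi⟩, rfl⟩
  · rintro ⟨c, D, hD, hne⟩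
    by_contra hcon
    push Not at hcon
    apply hne
    rcases c with l | i
    · refine ((ty (s := s) (n := n) hE h2 h3 (Sum.inl l)).W_iff D hD _).1 (fun x hx => ?_)
      exact hcon x (Or.inl ⟨l, hx⟩) D hD
    · refine ((ty (s := s) (n := n) hE h2 h3 (Sum.inr i)).W_iff D hD _).1 (fun x hx => ?_)
      obtain ⟨u, ⟨hu, hl⟩, rfl⟩ := hx
      rw [Set.mem_singleton_iff] at hu
      subst hu
      exact hcon _ (Or.inr ⟨i, hl, rfl⟩) D hD

theorem two_of {r : Fin s ⊕ Fin n → ℂ} (h : Trans F (Set.range r ∪ (wp L r ∪ ze L r))) :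
    Two (ty hE h2 h3) r := by
  obtain ⟨x, hx, D, hD, hne⟩ := trans_iff.1 h
  by_contra hcon
  unfold Two at hcon
  push Not at hcon
  obtain ⟨h4, h5⟩ := hcon
  have hN : ∀ i, ∀ x ∈ (ty (s := s) hE h2 h3 (Sum.inr i)).N (r (Sum.inr i)), D x = 0 := by
    intro i
    refine ((ty (s := s) hE h2 h3 (Sum.inr i)).N_iff D hD _).2 ⟨h4 _ D hD, fun j => ?_⟩
    have h01 : (1 : Fin 2) ≠ 0 := by decide
    have h6 := h5 (Sum.inr i) (1 : Fin 2) h01 D hD
    change Fin 2 at j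
    fin_cases j
    · exact h6.1
    · exact h6.2
  apply hne
  rcases hx with ⟨c, rfl⟩ | ⟨i, hi, rfl⟩ | ⟨i, hi, rfl⟩
  · exact h4 c D hD
  · exact hN i _ (Or.inr (Or.inr ⟨_, ⟨rfl, hi⟩, rfl⟩))
  · exact hN i _ (Or.inr (Or.inl (zt_eq hi).symm))

end aux

open Pool.Agent.TH813.One Pool.Agent.TH813.Ell in
/-- **Main result.** Let `F` be a subfield of `ℂ` which contains `g₂`, `g₃` and let `V` be a
finite-dimensional `ℚ`-space of vectors `r = (t, p)` with `s + n` components. There is a finite set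
of at most `binom(2 dim V, dim V)` subspaces `W` of `V` such that

* every `W` has `tr.deg_F F(t, e^t, p, ℘(p), ζ(p) : (t, p) ∈ W) = 1`, and contains some `(t, p)`
for which some `e^(t_l)` or `℘(p_i)` is transcendental over `F`;
* if `(t, p)` is in two different `W` then all numbers `t`, `e^t`, `p`, `℘(p)`, `ζ(p)` are algebraic
over `F`;
* for every `(t, p)` in `V`, all `p_i` outside the lattice, such that some `e^(t_l)` or `℘(p_i)` is
transcendental over `F` and some `t_l`, `p_i`, `℘(p_i)` or `ζ(p_i)` is transcendental over `F`,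
`tr.deg_F F(t, e^t, p, ℘(p), ζ(p)) ≤ 1` if and only if `(t, p)` is in one of the `W`. -/
theorem result (L : PeriodPair) (F : IntermediateField ℚ ℂ) (h2 : L.g₂ ∈ F) (h3 : L.g₃ ∈ F)
    (V : Submodule ℚ (Fin s ⊕ Fin n → ℂ)) (hfd : FiniteDimensional ℚ V) :
    ∃ G : Finset (Submodule ℚ (Fin s ⊕ Fin n → ℂ)),
      G.card ≤ (2 * finrank ℚ V).choose (finrank ℚ V) ∧
      (∀ W ∈ G, W ≤ V ∧ trd F (⋃ r ∈ W, pts L r) = 1 ∧ ∃ r ∈ W, Trans F (ex r ∪ wp L r)) ∧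
      (∀ W ∈ G, ∀ W' ∈ G, W ≠ W' → ∀ r ∈ W ⊓ W', ∀ x ∈ pts L r, IsAlgebraic F x) ∧
      ∀ r ∈ V, (∀ i, r (Sum.inr i) ∉ L.lattice) → Trans F (ex r ∪ wp L r) →
        Trans F (Set.range r ∪ (wp L r ∪ ze L r)) →
          (trd F (pts L r) ≤ 1 ↔ ∃ W ∈ G, r ∈ W) := by
  obtain ⟨κ, hE⟩ := exists_eig L
  obtain ⟨G, h1, h4, h5, h6⟩ := main_tr (T := ty (s := s) (n := n) hE h2 h3)
    (good_ty hE h2 h3) V
  have hle : ∀ W ∈ G, trd F (⋃ r ∈ W, pts L r) ≤ 1 := fun W hW =>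
    trd_mono (Set.iUnion₂_mono fun r _ => sub_num hE h2 h3 r) (le_of_eq (h4 W hW).2.2)
  refine ⟨G, h1, fun W hW => ?_, fun W hW W' hW' hne r hr x hx => ?_, fun r hr hl ha hb => ?_⟩
  · obtain ⟨hWV, ⟨y, hyW, hy⟩, ht⟩ := h4 W hW
    have hv := (val_iff hE h2 h3 y).2 hy.2.1
    refine ⟨hWV, le_antisymm (hle W hW) ?_, y, hyW, hv⟩
    obtain ⟨x, hx, hD⟩ := trans_iff.1 hv
    refine one_le_trF ⟨x, Set.mem_iUnion₂.2 ⟨y, hyW, ?_⟩, hD⟩
    rcases hx with hx | hx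
    · exact Or.inr (Or.inl hx)
    · exact Or.inr (Or.inr (Or.inl hx))
  · exact h5 W hW W' hW' hne r hr.1 hr.2 x (sub_num hE h2 h3 r hx)
  · constructor
    · intro h
      exact h6 r hr (trd_mono (num_sub hE h2 h3 hl) h) ((val_iff hE h2 h3 r).1 ha)
        (two_of hE h2 h3 hb)
    · rintro ⟨W, hW, hrW⟩
      exact trd_mono (Set.subset_iUnion₂_of_subset r hrW subset_rfl) (hle W hW)

end Pool.Agent.TH813.Old.DegreeOneCurve
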