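import Mathlib
import Pool.Agent.TH813.ZtSys

/-!
# Few points of rational spaces at which `ζ(p_i)` is a polynomial in `p`

`L` is a pair of periods `ω₁, ω₂` (independent over `ℝ`), with the lattice
`Ω = L.lattice = ℤ ω₁ + ℤ ω₂`; `℘[L]`, `L.g₂`, `L.g₃` are Mathlib's Weierstrass function and
invariants of `L`.

If `ζ(p_i) = Q_i(p₁, …, pₙ)` for `i = 1, …, n`, with polynomials `Q_i` over a field `F` which contains
`g₂`, `g₃`, then `trdeg_F F(p, ℘(p), ζ(p)) ≤ 2 n`, so such points are boundary cases of the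
conjecture. The theorem gives an upper bound for the number of such points with coordinates in
rational spaces.
-/

set_option autoImplicit false

open Module
open scoped PeriodPair

namespace Pool.Agent.TH813.Old.FewZetaOnly

/-- The Weierstrass zeta function `ζ(z) = ∑ (1/(z-l) + 1/l + z/l²)`, the sum over the lattice (the
summand of `l = 0` is `1/z`, since `1/0 = 0` in Lean). -/
noncomputable def ζ (L : PeriodPair) (z : ℂ) : ℂ :=
  ∑' l : L.lattice, (1 / (z - l) + 1 / l + z / l ^ 2)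

open Pool.Agent.TH813 in
/-- **Main result.** Let `F` be a subfield of `ℂ` which contains `g₂`, `g₃`, and let `V i`,
`i = 1, …, n`, be `ℚ`-spaces of complex numbers of finite dimensions such that no nonzero `u` in
`V i` is in the lattice or has `℘(u)` algebraic over `F`; let `R = ∑ dim V i`. Let `Q_i` be
polynomials over `F` in `n` variables, of total degrees at most `b`, `b ≥ 1`. Then at most
`binom((3 b + 3) R, R)` points `p` of `∏ V i` with `p_i ≠ 0` for all `i` are such that all numbers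
`ζ(p_i) - Q_i(p)` are algebraic over `F` (for instance `0`). -/
theorem result (L : PeriodPair) (F : IntermediateField ℚ ℂ) (h2 : L.g₂ ∈ F) (h3 : L.g₃ ∈ F)
    (n : ℕ) (V : Fin n → Submodule ℚ ℂ) (hfd : ∀ i, FiniteDimensional ℚ (V i))
    (hV : ∀ i, ∀ u ∈ V i, u ∈ L.lattice ∨ IsAlgebraic F (℘[L] u) → u = 0) (b : ℕ) (hb : 1 ≤ b)
    (Q : Fin n → MvPolynomial (Fin n) F) (hQ : ∀ i, (Q i).totalDegree ≤ b) :
    {p : ∀ i, V i | ∀ i, (p i : ℂ) ≠ 0 ∧
      IsAlgebraic F (ζ L (p i) - MvPolynomial.aeval (fun j => (p j : ℂ)) (Q i))}.encard ≤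
      (((3 * b + 3) * ∑ i, finrank ℚ (V i)).choose (∑ i, finrank ℚ (V i)) : ℕ) := by
  classical
  set N := ((3 * b + 3) * ∑ i, finrank ℚ (V i)).choose (∑ i, finrank ℚ (V i)) with hN
  let e : ∀ i, Basis (Fin (finrank ℚ (V i))) ℚ (V i) := fun i => finBasis ℚ (V i)
  have hlc : ∀ i (p : V i), ZtFin.lc (fun l => (e i l : ℂ)) ((e i).repr p) = (p : ℂ) := by
    intro i p
    rw [ZtFin.lc_apply]
    have h := congrArg Subtype.val ((e i).sum_repr p)
    rw [← h]
    push_cast
    rfl
  let ι := Σ i : Fin n, Fin (finrank ℚ (V i))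
  let μ : Fin n → (ι → ℚ) →ₗ[ℚ] ℂ := fun i =>
    ZtFin.lc (fun l => (e i l : ℂ)) ∘ₗ LinearMap.funLeft ℚ ℚ (fun l => (⟨i, l⟩ : ι))
  let φ : (∀ i, V i) → (ι → ℚ) := fun z p => (e p.1).repr (z p.1) p.2
  have hφi : Function.Injective φ := by
    intro z z' h
    funext j
    apply (e j).repr.injective
    ext l
    exact congrFun h ⟨j, l⟩
  have hmu : ∀ (z : ∀ i, V i) (j : Fin n), μ j (φ z) = (z j : ℂ) := fun z j => hlc j (z j)
  have hev : ∀ (z : ∀ i, V i) (B : MvPolynomial (Fin n) F),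
      DQ.ev μ B (φ z) = MvPolynomial.aeval (fun j => (z j : ℂ)) B := by
    intro z B
    unfold DQ.ev
    congr 1
    congr 1
    funext j
    exact hmu z j
  by_contra hcon
  rw [not_le] at hcon
  obtain ⟨t, hts, ht⟩ := Set.exists_subset_encard_eq (Order.add_one_le_of_lt hcon)
  have hfin : t.Finite := by
    rw [← Set.encard_lt_top_iff, ht]
    exact_mod_cast ENat.natCast_lt_top (N + 1)
  have hcard : hfin.toFinset.card = N + 1 := by
    rw [hfin.encard_eq_coe_toFinset_card] at ht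
    exact_mod_cast ht
  have key := ZtSys.main (F := F) μ h2 h3 Q hQ hb (by
    intro z hz
    funext ⟨i, l⟩
    have h4 := hlc i ((e i).equivFun.symm (fun l => z ⟨i, l⟩))
    have h5 : ((e i).repr ((e i).equivFun.symm (fun l => z ⟨i, l⟩)) : Fin (finrank ℚ (V i)) → ℚ) =
        fun l => z ⟨i, l⟩ := (e i).equivFun.apply_symm_apply _
    rw [h5] at h4
    have h7 : μ i z = ((e i).equivFun.symm (fun l => z ⟨i, l⟩) : V i) := h4
    have h8 := hV i _ (Subtype.mem ((e i).equivFun.symm (fun l => z ⟨i, l⟩)))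
      (by rw [← h7]; exact hz i)
    have h6 : (e i).equivFun.symm (fun l => z ⟨i, l⟩) = 0 := Subtype.ext h8
    exact congrFun ((LinearEquiv.map_eq_zero_iff _).1 h6) l) (hfin.toFinset.image φ) (by
    intro x hx i
    obtain ⟨z, hz, rfl⟩ := Finset.mem_image.1 hx
    rw [hev, hmu]
    obtain ⟨h0, ha⟩ := hts (hfin.mem_toFinset.1 hz) i
    have hn : ¬ MixSys.Null F (some L) (z i : ℂ) := fun hn => h0 (hV i _ (z i).2 hn)
    have hl : (z i : ℂ) ∉ L.lattice := fun h => hn (Or.inl h)
    refine ⟨hn, ?_⟩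
    rw [Pool.Agent.W245.EB.zt_of_notMem hl]
    exact ha)
  have hι : Fintype.card ι = ∑ i, finrank ℚ (V i) := by
    rw [Fintype.card_sigma]
    exact Finset.sum_congr rfl (fun i _ => Fintype.card_fin _)
  rw [Finset.card_image_of_injective _ hφi, hcard, hι] at key
  omega

end Pool.Agent.TH813.Old.FewZetaOnly
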